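import Pool.Agent.Helper17.RZ.Sch.St
import Pool.Agent.Helper17.RZ.Sch.Dual

/-!
# Project RZ (MP_77656e_ag), the layer of schemes, module S2c: lattices on the charts give vector bundles
-/

set_option autoImplicit false

open AlgebraicGeometry CategoryTheory TopologicalSpace Opposite

namespace Pool.Agent.Helper87.RZ

open Pool.Agent.Helper17.RZ Pool.Agent.Helper17.RZ.Sch

universe u

noncomputable section

variable {k : Type u} [Field k] (X : CSch.{u} k)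

theorem eta_Us (σ : Finset X.I) : X.eta ∈ X.Us σ := by
  unfold CSch.Us
  induction σ using Finset.induction_on with
  | empty => simp
  | insert j s _ ih =>
    rw [Finset.inf_insert, Opens.mem_inf]
    obtain ⟨y, hy⟩ := X.ne j
    exact ⟨X.eta_mem hy, ih⟩

theorem mem_basicOpen_pow {W : X.Z.Opens} (g : Γ(X.Z, W)) {x : X.Z} (hx : x ∈ X.Z.basicOpen g) (n : ℕ) :
    x ∈ X.Z.basicOpen (g ^ n) := by
  have hxW : x ∈ W := X.Z.basicOpen_le g hx
  rw [Scheme.mem_basicOpen X.Z _ x hxW] at hx ⊢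
  rw [map_pow]
  exact hx.pow n

theorem mem_basicOpen_one {W : X.Z.Opens} {x : X.Z} (hx : x ∈ W) :
    x ∈ X.Z.basicOpen (1 : Γ(X.Z, W)) := by
  rw [Scheme.mem_basicOpen X.Z _ x hx, map_one]
  exact isUnit_one

theorem gr_ne_zero {W : X.Z.Opens} (h : X.eta ∈ W) (g : Γ(X.Z, W)) {x : X.Z}
    (hx : x ∈ X.Z.basicOpen g) : X.gr W h g ≠ 0 :=
  (X.gr_basicOpen_ne_zero W h g).mp (X.eta_mem hx)

/-- a function regular at a point of an affine open subset is a fraction -/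
theorem exists_den {W : X.Z.Opens} (hW : IsAffineOpen W) (h : X.eta ∈ W) {y : X.Z} (hy : y ∈ W)
    (c : X.K) (hc : Reg X y c) : ∃ g : Γ(X.Z, W), y ∈ X.Z.basicOpen g ∧ X.gr W h g * c ∈ X.OO W := by
  obtain ⟨U, hyU, hcU⟩ := hc
  obtain ⟨g, hg, hyg⟩ := hW.exists_basicOpen_le ⟨y, hyU⟩ hy
  obtain ⟨N, hN⟩ := X.exists_pow_mul_mem_OO W hW h g c (X.OO_mono hg hcU)
  refine ⟨g ^ N, mem_basicOpen_pow X g hyg N, ?_⟩
  rw [map_pow]
  exact hN

/-- the same for finitely many functions -/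
theorem exists_den_fin {W : X.Z.Opens} (hW : IsAffineOpen W) (h : X.eta ∈ W) {y : X.Z} (hy : y ∈ W)
    {n : ℕ} (c : Fin n → X.K) (hc : ∀ j, Reg X y (c j)) :
    ∃ g : Γ(X.Z, W), y ∈ X.Z.basicOpen g ∧ ∀ j, X.gr W h g * c j ∈ X.OO W := by
  choose g hg hgc using fun j => exists_den X hW h hy (c j) (hc j)
  refine ⟨∏ j, g j, ?_, ?_⟩
  · rw [Scheme.mem_basicOpen X.Z _ y hy, map_prod]
    have : ∀ j, IsUnit ((X.Z.presheaf.germ W y hy).hom (g j)) := fun j =>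
      (Scheme.mem_basicOpen X.Z _ y hy).mp (hg j)
    exact IsUnit.prod_univ_iff.mpr this
  · intro j
    rw [map_prod, ← Finset.prod_erase_mul _ _ (Finset.mem_univ j), mul_assoc]
    refine (X.OO W).mul_mem ?_ (hgc j)
    exact Subalgebra.prod_mem _ (fun i _ => X.gr_mem_OO W h (g i))

variable (a : X.I → X.K) (h : IsModel X a) {V : Type u} [AddCommGroup V] [Module X.K V]
  (lat : ∀ σ : Finset X.I, Submodule ((pv X a h).A σ) V)

theorem mem_A_iff {σ : Finset X.I} (hσ : σ.Nonempty) (c : X.K) :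
    c ∈ (pv X a h).A σ ↔ c ∈ X.OO (X.Us σ) := by
  rw [h.OO_eq σ hσ]
  rfl

variable {a h} {lat}

theorem smul_mem_lat {σ : Finset X.I} (hσ : σ.Nonempty) {c : X.K} (hc : c ∈ X.OO (X.Us σ)) {v : V}
    (hv : v ∈ lat σ) : c • v ∈ lat σ :=
  (lat σ).smul_mem (⟨c, (mem_A_iff X a h hσ c).mpr hc⟩ : (pv X a h).A σ) hv

theorem pow_smul_mem_lat {σ : Finset X.I} (hσ : σ.Nonempty) {c : X.K} (hc : c ∈ X.OO (X.Us σ)) {v : V}
    {N M : ℕ} (hNM : N ≤ M) (hv : c ^ N • v ∈ lat σ) : c ^ M • v ∈ lat σ := by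
  obtain ⟨d, rfl⟩ := Nat.exists_eq_add_of_le hNM
  rw [pow_add, mul_comm, mul_smul]
  exact smul_mem_lat X hσ ((X.OO _).pow_mem hc d) hv

variable (lat) in
/-- `v` is a section near `x`, seen in the chart `σ` -/
def Q (σ : Finset X.I) (x : X.Z) (v : V) : Prop :=
  ∃ g : Γ(X.Z, X.Us σ), x ∈ X.Z.basicOpen g ∧ X.gr (X.Us σ) (eta_Us X σ) g • v ∈ lat σ

theorem down (hloc : ∀ σ τ : Finset X.I, σ.Nonempty → σ ⊆ τ →
      lat τ = Submodule.span ((pv X a h).A τ) (lat σ : Set V))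
    {τ ρ : Finset X.I} (hτ : τ.Nonempty) (hτρ : τ ⊆ ρ) (g : Γ(X.Z, X.Us τ))
    (hb : X.Z.basicOpen g ≤ X.Us ρ) (w : V) (hw : w ∈ lat ρ) :
    ∃ N : ℕ, X.gr (X.Us τ) (eta_Us X τ) g ^ N • w ∈ lat τ := by
  have hρ : ρ.Nonempty := hτ.mono hτρ
  have hg : X.gr (X.Us τ) (eta_Us X τ) g ∈ X.OO (X.Us τ) := X.gr_mem_OO _ _ g
  rw [hloc τ ρ hτ hτρ] at hw
  refine Submodule.span_induction (p := fun w _ => ∃ N : ℕ, X.gr (X.Us τ) (eta_Us X τ) g ^ N • w ∈ lat τ)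
    ?_ ?_ ?_ ?_ hw
  · intro x hx
    exact ⟨0, by rw [pow_zero, one_smul]; exact hx⟩
  · exact ⟨0, by rw [smul_zero]; exact (lat τ).zero_mem⟩
  · rintro x y _ _ ⟨N, hN⟩ ⟨M, hM⟩
    refine ⟨max N M, ?_⟩
    rw [smul_add]
    exact (lat τ).add_mem (pow_smul_mem_lat X hτ hg (le_max_left _ _) hN)
      (pow_smul_mem_lat X hτ hg (le_max_right _ _) hM)
  · rintro ⟨c, hc⟩ x _ ⟨N, hN⟩
    have hc' : c ∈ X.OO (X.Z.basicOpen g) := X.OO_mono hb ((mem_A_iff X a h hρ c).mp hc)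
    obtain ⟨M, hM⟩ := X.exists_pow_mul_mem_OO (X.Us τ) (h.aff τ hτ) (eta_Us X τ) g c hc'
    refine ⟨M + N, ?_⟩
    change X.gr (X.Us τ) (eta_Us X τ) g ^ (M + N) • (c • x) ∈ lat τ
    have : X.gr (X.Us τ) (eta_Us X τ) g ^ (M + N) • (c • x) =
        (X.gr (X.Us τ) (eta_Us X τ) g ^ M * c) • (X.gr (X.Us τ) (eta_Us X τ) g ^ N • x) := by
      rw [smul_smul, smul_smul]
      congr 1
      ring
    rw [this]
    exact smul_mem_lat X hτ hM hN

theorem Q_change (hloc : ∀ σ τ : Finset X.I, σ.Nonempty → σ ⊆ τ →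
      lat τ = Submodule.span ((pv X a h).A τ) (lat σ : Set V))
    {σ τ : Finset X.I} (hσ : σ.Nonempty) (hτ : τ.Nonempty) {x : X.Z} (hx : x ∈ X.Us τ) {v : V}
    (hv : Q X lat σ x v) : Q X lat τ x v := by
  obtain ⟨g, hxg, hg⟩ := hv
  have hxσ : x ∈ X.Us σ := X.Z.basicOpen_le g hxg
  have hxρ : x ∈ X.Us (σ ∪ τ) := by
    unfold CSch.Us at *
    rw [Finset.inf_union]
    exact ⟨hxσ, hx⟩
  have hρ : X.gr (X.Us σ) (eta_Us X σ) g • v ∈ lat (σ ∪ τ) := by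
    rw [hloc σ (σ ∪ τ) hσ Finset.subset_union_left]
    exact Submodule.subset_span hg
  obtain ⟨g₀, hg₀, hxg₀⟩ := (h.aff τ hτ).exists_basicOpen_le
    (V := X.Us (σ ∪ τ) ⊓ X.Z.basicOpen g) ⟨x, ⟨hxρ, hxg⟩⟩ hx
  obtain ⟨N, hN⟩ := down X hloc hτ Finset.subset_union_right g₀ (hg₀.trans inf_le_left) _ hρ
  obtain ⟨M, hM⟩ := X.exists_pow_mul_mem_OO (X.Us τ) (h.aff τ hτ) (eta_Us X τ) g₀
    (X.gr (X.Us σ) (eta_Us X σ) g)⁻¹
    (X.OO_mono (hg₀.trans inf_le_right) (X.inv_mem_OO (X.Us σ) (eta_Us X σ) g))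
  refine ⟨g₀ ^ (M + N), mem_basicOpen_pow X g₀ hxg₀ _, ?_⟩
  have hne : X.gr (X.Us σ) (eta_Us X σ) g ≠ 0 := gr_ne_zero X (eta_Us X σ) g hxg
  have : X.gr (X.Us τ) (eta_Us X τ) (g₀ ^ (M + N)) • v =
      (X.gr (X.Us τ) (eta_Us X τ) g₀ ^ M * (X.gr (X.Us σ) (eta_Us X σ) g)⁻¹) •
        (X.gr (X.Us τ) (eta_Us X τ) g₀ ^ N • (X.gr (X.Us σ) (eta_Us X σ) g • v)) := by
    rw [smul_smul, smul_smul, map_pow]
    congr 1
    field_simp
    ring
  rw [this]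
  exact smul_mem_lat X hτ hM hN

theorem Q_of_mem {σ : Finset X.I} {x : X.Z} (hx : x ∈ X.Us σ) {v : V}
    (hv : v ∈ lat σ) : Q X lat σ x v :=
  ⟨1, mem_basicOpen_one X hx, by rw [map_one, one_smul]; exact hv⟩

theorem mem_of_Q {σ : Finset X.I} (hσ : σ.Nonempty) {v : V}
    (hv : ∀ x ∈ X.Us σ, Q X lat σ x v) : v ∈ lat σ := by
  let J : Ideal Γ(X.Z, X.Us σ) :=
    { carrier := {g | X.gr (X.Us σ) (eta_Us X σ) g • v ∈ lat σ}
      add_mem' := fun {g g'} hg hg' => by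
        change X.gr (X.Us σ) (eta_Us X σ) (g + g') • v ∈ lat σ
        rw [map_add, add_smul]
        exact (lat σ).add_mem hg hg'
      zero_mem' := by
        change X.gr (X.Us σ) (eta_Us X σ) 0 • v ∈ lat σ
        rw [map_zero, zero_smul]
        exact (lat σ).zero_mem
      smul_mem' := fun c g hg => by
        change X.gr (X.Us σ) (eta_Us X σ) (c * g) • v ∈ lat σ
        rw [map_mul, mul_smul]
        exact smul_mem_lat X hσ (X.gr_mem_OO _ _ c) hg }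
  have h1 : Ideal.span (J : Set Γ(X.Z, X.Us σ)) = ⊤ := by
    rw [← (h.aff σ hσ).self_le_iSup_basicOpen_iff]
    intro x hx
    obtain ⟨g, hxg, hg⟩ := hv x hx
    exact Opens.mem_iSup.mpr ⟨⟨g, hg⟩, hxg⟩
  rw [Ideal.span_eq] at h1
  have h2 : (1 : Γ(X.Z, X.Us σ)) ∈ J := by rw [h1]; trivial
  have h3 : X.gr (X.Us σ) (eta_Us X σ) 1 • v ∈ lat σ := h2
  rwa [map_one, one_smul] at h3

theorem locFree (hF : FreeLoc.{u})
    (hfin : ∀ σ : Finset X.I, σ.Nonempty → Module.Finite ((pv X a h).A σ) (lat σ))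
    (hproj : ∀ σ : Finset X.I, σ.Nonempty → Module.Projective ((pv X a h).A σ) (lat σ))
    (hgen : ∀ σ : Finset X.I, σ.Nonempty → ∀ v : V, ∃ c : (pv X a h).A σ, c ≠ 0 ∧ c • v ∈ lat σ)
    {σ : Finset X.I} (hσ : σ.Nonempty) (x : X.Z) (hx : x ∈ X.Us σ) :
    ∃ U : X.Z.Opens, x ∈ U ∧ U ≤ X.Us σ ∧ ∃ (n : ℕ) (e : Module.Basis (Fin n) X.K V), ∀ y ∈ U, ∀ v,
      Q X lat σ y v ↔ ∀ j, Reg X y (e.repr v j) := by
  have hη := eta_Us X σ
  set W := X.Us σ with hWdef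
  have hW : IsAffineOpen W := h.aff σ hσ
  -- the coordinate ring
  let A := (pv X a h).A σ
  have hmemA : ∀ c : X.K, c ∈ A ↔ c ∈ X.OO W := mem_A_iff X a h hσ
  let φ : Γ(X.Z, W) →+* A := (X.gr W hη).codRestrict A (fun r => (hmemA _).mpr (X.gr_mem_OO W hη r))
  have hφ : Function.Bijective φ := by
    constructor
    · intro r s hrs
      apply X.gr_injective W hη
      exact congrArg (fun z : A => (z : X.K)) hrs
    · rintro ⟨c, hc⟩
      obtain ⟨r, hr⟩ := (hmemA c).mp hc hη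
      exact ⟨r, Subtype.ext hr⟩
  let ψ : Γ(X.Z, W) ≃+* A := RingEquiv.ofBijective φ hφ
  have hψ : ∀ c : A, X.gr W hη (ψ.symm c) = c := by
    intro c
    have : ψ (ψ.symm c) = c := ψ.apply_symm_apply c
    exact congrArg (fun z : A => (z : X.K)) this
  have hfrac : IsFractionRing A X.K := by
    apply IsFractionRing.of_field
    intro z
    obtain ⟨g, hg0, hg⟩ := X.exists_mul_mem_OO W hW hη z
    refine ⟨⟨_, (hmemA _).mpr hg⟩, φ g, ?_⟩
    change z = (X.gr W hη g * z) / X.gr W hη g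
    field_simp
  let q : Ideal Γ(X.Z, W) := Ideal.comap (X.Z.presheaf.germ W x hx).hom
    (IsLocalRing.maximalIdeal (X.Z.presheaf.stalk x))
  have hq : q.IsPrime := Ideal.IsPrime.comap _
  let p : Ideal A := Ideal.comap (ψ.symm : A →+* Γ(X.Z, W)) q
  have hp : p.IsPrime := Ideal.IsPrime.comap _
  have := hfin σ hσ
  have := hproj σ hσ
  obtain ⟨r, n, e, hr, he, hc⟩ := hF A X.K V (lat σ) (hfin σ hσ) (hproj σ hσ) (hgen σ hσ) p
  have hxr : x ∈ X.Z.basicOpen (ψ.symm r) := by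
    rw [Scheme.mem_basicOpen X.Z _ x hx]
    by_contra hcon
    apply hr
    change (X.Z.presheaf.germ W x hx).hom (ψ.symm r) ∈ IsLocalRing.maximalIdeal (X.Z.presheaf.stalk x)
    exact (IsLocalRing.mem_maximalIdeal _).mpr hcon
  refine ⟨X.Z.basicOpen (ψ.symm r), hxr, X.Z.basicOpen_le _, n, e, ?_⟩
  intro y hy v
  have hyW : y ∈ W := X.Z.basicOpen_le _ hy
  constructor
  · rintro ⟨g, hyg, hg⟩ j
    obtain ⟨c, hc⟩ := hc _ hg j
    refine ⟨X.Z.basicOpen (ψ.symm r) ⊓ X.Z.basicOpen g, ⟨hy, hyg⟩, ?_⟩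
    have hr0 : (r : X.K) ≠ 0 := by
      rw [← hψ r]
      exact gr_ne_zero X hη _ hy
    have hg0 : X.gr W hη g ≠ 0 := gr_ne_zero X hη g hyg
    have e1 : (c : X.K) = (r : X.K) * (X.gr W hη g * e.repr v j) := by
      have h1 : (c : X.K) = (r : X.K) * e.repr (X.gr W hη g • v) j := hc
      rw [h1, map_smul, Finsupp.smul_apply, smul_eq_mul]
    have e2 : e.repr v j = (c : X.K) * ((X.gr W hη (ψ.symm r))⁻¹ * (X.gr W hη g)⁻¹) := by
      rw [e1, hψ r]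
      field_simp
    rw [e2]
    refine (X.OO _).mul_mem ?_ ((X.OO _).mul_mem ?_ ?_)
    · exact X.OO_mono (inf_le_left.trans (X.Z.basicOpen_le _)) ((hmemA _).mp c.2)
    · exact X.OO_mono inf_le_left (X.inv_mem_OO W hη _)
    · exact X.OO_mono inf_le_right (X.inv_mem_OO W hη _)
  · intro hreg
    obtain ⟨g, hyg, hg⟩ := exists_den_fin X hW hη hyW (fun j => e.repr v j) hreg
    refine ⟨g, hyg, ?_⟩
    have e1 : X.gr W hη g • v = ∑ j, (X.gr W hη g * e.repr v j) • e j := by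
      conv_lhs => rw [← e.sum_repr v, Finset.smul_sum]
      exact Finset.sum_congr rfl (fun j _ => by rw [smul_smul])
    change X.gr W hη g • v ∈ lat σ
    rw [e1]
    exact (lat σ).sum_mem (fun j _ => smul_mem_lat X hσ (hg j) (he j))

/-- S2 -/
theorem sheafEx : FreeLoc.{u} → SheafOf.{u} → SheafEx.{u} := by
  intro hF hS k _ X a h V _ _ lat hfin hproj hgen hloc
  let L : X.Z → Set V := fun x => {v | ∃ σ : Finset X.I, σ.Nonempty ∧ Q X lat σ x v}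
  have hL : ∀ {σ : Finset X.I}, σ.Nonempty → ∀ {x : X.Z}, x ∈ X.Us σ → ∀ v : V,
      (v ∈ L x ↔ Q X lat σ x v) := by
    intro σ hσ x hx v
    constructor
    · rintro ⟨τ, hτ, hv⟩
      exact Q_change X hloc hτ hσ hx hv
    · intro hv
      exact ⟨σ, hσ, hv⟩
  obtain ⟨E, e, hE, he⟩ := hS k X V L (by
    intro x
    obtain ⟨i, hi⟩ := X.cov x
    have hx : x ∈ X.Us {i} := by
      unfold CSch.Us
      rw [Finset.inf_singleton]
      exact hi
    obtain ⟨U, hxU, hU, n, e, he⟩ := locFree X hF hfin hproj hgen (Finset.singleton_nonempty i) x hx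
    refine ⟨U, hxU, n, e, fun y hy v => ?_⟩
    rw [hL (Finset.singleton_nonempty i) (hU hy)]
    exact he y hy v)
  refine ⟨E, e, hE, fun σ hσ v => ?_⟩
  rw [he (X.Us σ) (eta_Us X σ)]
  constructor
  · intro hv
    exact mem_of_Q X hσ (fun x hx => (hL hσ hx _).mp (hv x hx))
  · intro hv x hx
    exact (hL hσ hx _).mpr (Q_of_mem X hx hv)

end

end Pool.Agent.Helper87.RZ
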